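import Pool.Agent.R164.Tang

/-!
# Tangencies among pairwise intersecting bi-infinite x-monotone curves

For every `k ≥ 3` the number of tangencies of `n` pairwise intersecting, `k`-intersecting
bi-infinite `x`-monotone curves is not bounded by a linear function of `n`.

Construction: take a list of blocks of symbols without alternation `a b a b a` whose length is not
linear in the number of symbols plus the number of blocks (Hart and Sharir). The `s`-th block gives
the line `y = s^2 - 2 s x`, tangent to the parabola `y = -x^2`. A symbol gives the lower envelope of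
small parabolas, each touching from below the line of a block containing the symbol; the touching
points on one line are ordered as the symbols in the block, and are otherwise generic. Two envelopes
meet at most as often as their symbols alternate, so at most three times; a line and an envelope
which do not touch meet at most twice.
-/

set_option autoImplicit false

namespace Pool.Agent.Results.MP_1a6bb7_co.SuperlinearTangencies

open Pool.Agent.R164

/-- The graphs of the functions `f i` form a family of bi-infinite `x`-monotone curves which is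
pairwise intersecting (any two curves share at least one point) and `k`-intersecting (any two
curves share at most `k` points), and no point lies on three curves. -/
structure IsFamily (k : ℕ) {ι : Type} (f : ι → ℝ → ℝ) : Prop where
  continuous : ∀ i, Continuous (f i)
  meet : ∀ i j, i ≠ j → {x | f i x = f j x}.Nonempty
  few : ∀ i j, i ≠ j → {x | f i x = f j x}.encard ≤ k
  simple : ∀ i j l, i ≠ j → i ≠ l → j ≠ l → ∀ x, ¬ (f i x = f j x ∧ f i x = f l x)

/-- The graphs of `g` and `h` are tangent: they share exactly one point and do not cross there,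
that is, one of the two curves lies nowhere above the other one. -/
def Tangent (g h : ℝ → ℝ) : Prop :=
  (∃! x, g x = h x) ∧ ((∀ x, g x ≤ h x) ∨ (∀ x, h x ≤ g x))

/-- The graph of the tangent pairs of curves. -/
def tangencyGraph {ι : Type} (f : ι → ℝ → ℝ) : SimpleGraph ι where
  Adj i j := i ≠ j ∧ Tangent (f i) (f j)
  symm := ⟨fun i j h => ⟨h.1.symm, by
    obtain ⟨x, hx, hu⟩ := h.2.1
    exact ⟨x, hx.symm, fun y hy => hu y hy.symm⟩, h.2.2.symm⟩⟩
  loopless := ⟨fun i h => h.1 rfl⟩

/-- The number of tangencies: the number of unordered tangent pairs. -/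
noncomputable def tangencies {ι : Type} (f : ι → ℝ → ℝ) : ℕ := (tangencyGraph f).edgeSet.ncard

theorem sum_lengths (L : List (List ℕ)) :
    ∑ s ∈ Finset.range L.length, (Tang.B L s).length = (L.map List.length).sum := by
  induction L with
  | nil => simp
  | cons l t ih =>
    rw [List.length_cons, Finset.sum_range_succ', List.map_cons, List.sum_cons, ← ih, add_comm]
    rfl

theorem main (T : ℕ) (hT : 1 ≤ T) : ∃ (F n : ℕ) (f : Fin n → ℝ → ℝ), 1 ≤ F ∧ n ≤ 3 * F ∧
    IsFamily 3 f ∧ T * F ≤ tangencies f := by
  classical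
  obtain ⟨F, L, hF, hlen, hnd, hsym, hfl, hds⟩ := DS3.exists_blocks T hT
  set A : Finset ℕ := L.flatten.toFinset with hAdef
  have hA : ∀ a ∈ A, (Tang.N L a).Nonempty := by
    intro a ha
    rw [hAdef, List.mem_toFinset, List.mem_flatten] at ha
    obtain ⟨l, hl, hal⟩ := ha
    obtain ⟨s, hs, rfl⟩ := List.getElem_of_mem hl
    exact ⟨s, Tang.mem_N.2 ⟨hs, by simpa [Tang.B, hs] using hal⟩⟩
  obtain ⟨z, hzJ, hz3⟩ := Tang.exists_generic hds A hA
  have hz := Tang.adm_of_J hzJ
  set I := Tang.Idx L A with hI
  let e : Fin I.card ≃ I := I.equivFin.symm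
  let f : Fin I.card → ℝ → ℝ := fun i => Tang.cv L z (e i)
  have hne : ∀ {i j : Fin I.card}, i ≠ j → (e i : ℕ ⊕ ℕ) ≠ e j := fun {i j} h h' =>
    h (e.injective (Subtype.ext h'))
  have hfam : IsFamily 3 f := by
    refine ⟨fun i => Tang.continuous_cv _, fun i j hij => ?_, fun i j hij => ?_, ?_⟩
    · exact (Tang.pair_props hz hds hA (e i).2 (e j).2 (hne hij)).1
    · exact (Tang.pair_props hz hds hA (e i).2 (e j).2 (hne hij)).2
    · intro i j l hij hil hjl x hx
      exact hz3 _ (e i).2 _ (e j).2 _ (e l).2 (hne hij) (hne hil) (hne hjl) x hx.1 hx.2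
  refine ⟨F, I.card, f, hF, ?_, hfam, ?_⟩
  · rw [hI, Tang.Idx, Finset.card_disjSum, Finset.card_range]
    omega
  · -- the incidences
    set P : Finset (Σ _ : ℕ, ℕ) := (Finset.range L.length).sigma (fun s => (Tang.B L s).toFinset)
      with hP
    have hPc : P.card = T * F := by
      rw [hP, Finset.card_sigma, ← hfl, List.length_flatten]
      have h1 : ∀ s ∈ Finset.range L.length, (Tang.B L s).toFinset.card = (Tang.B L s).length := by
        intro s hs
        apply List.toFinset_card_of_nodup
        have hs' : s < L.length := Finset.mem_range.1 hs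
        have : Tang.B L s = L[s] := by simp [Tang.B, hs']
        rw [this]
        exact hnd _ (List.getElem_mem hs')
      rw [Finset.sum_congr rfl h1, sum_lengths]
    rw [← hPc]
    rcases P.eq_empty_or_nonempty with hPe | ⟨p0, hp0⟩
    · rw [hPe]; simp
    have hmem : ∀ p ∈ P, Sum.inl p.1 ∈ I ∧ Sum.inr p.2 ∈ I ∧ p.1 ∈ Tang.N L p.2 := by
      intro p hp
      rw [hP, Finset.mem_sigma, List.mem_toFinset] at hp
      obtain ⟨h1, h2⟩ := hp
      have h3 : p.1 ∈ Tang.N L p.2 := Tang.mem_N.2 ⟨Finset.mem_range.1 h1, h2⟩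
      have h4 : p.2 ∈ A := by
        rw [hAdef, List.mem_toFinset, List.mem_flatten]
        refine ⟨Tang.B L p.1, ?_, h2⟩
        have h5 : p.1 < L.length := Finset.mem_range.1 h1
        have : Tang.B L p.1 = L[p.1] := by simp [Tang.B, h5]
        rw [this]
        exact List.getElem_mem h5
      refine ⟨?_, ?_, h3⟩
      · rw [hI, Tang.Idx, Finset.inl_mem_disjSum]; exact h1
      · rw [hI, Tang.Idx, Finset.inr_mem_disjSum]; exact h4
    have hsurj : ∀ i ∈ I, ∃ j : Fin I.card, (e j : ℕ ⊕ ℕ) = i := fun i hi =>
      ⟨e.symm ⟨i, hi⟩, by rw [Equiv.apply_symm_apply]⟩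
    have : Nonempty (Fin I.card) := ⟨e.symm ⟨_, (hmem p0 hp0).1⟩⟩
    choose! idx hidx using hsurj
    rw [tangencies, ← Set.ncard_coe_finset P]
    refine Set.ncard_le_ncard_of_injOn (fun p => s(idx (Sum.inl p.1), idx (Sum.inr p.2))) ?_ ?_
      (Set.toFinite _)
    · intro p hp
      obtain ⟨h1, h2, h3⟩ := hmem p hp
      rw [SimpleGraph.mem_edgeSet]
      have e1 : Tang.cv L z (e (idx (Sum.inl p.1))) = Tang.r p.1 := by rw [hidx _ h1]; rfl
      have e2 : Tang.cv L z (e (idx (Sum.inr p.2))) = Tang.blue L z p.2 := by rw [hidx _ h2]; rfl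
      have hle : ∀ x, Tang.blue L z p.2 x ≤ Tang.r p.1 x := by
        intro x
        by_cases hx : x = z p.2 p.1
        · rw [hx, Tang.blue_at hz h3]
        · exact (Tang.blue_lt h3 hx).le
      refine ⟨?_, ?_, ?_⟩
      · intro h
        have h4 : (Sum.inl p.1 : ℕ ⊕ ℕ) = Sum.inr p.2 := by rw [← hidx _ h1, ← hidx _ h2, h]
        exact absurd h4 (by simp)
      · refine ⟨z p.2 p.1, ?_, ?_⟩
        · change Tang.cv L z (e (idx (Sum.inl p.1))) _ = Tang.cv L z (e (idx (Sum.inr p.2))) _
          rw [e1, e2, Tang.blue_at hz h3]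
        · intro y hy
          change Tang.cv L z (e (idx (Sum.inl p.1))) y = Tang.cv L z (e (idx (Sum.inr p.2))) y at hy
          rw [e1, e2] at hy
          by_contra hne'
          exact absurd (Tang.blue_lt h3 hne') (by rw [hy]; exact lt_irrefl _)
      · right
        intro x
        change Tang.cv L z (e (idx (Sum.inr p.2))) x ≤ Tang.cv L z (e (idx (Sum.inl p.1))) x
        rw [e1, e2]
        exact hle x
    · intro p hp p' hp' h
      obtain ⟨h1, h2, _⟩ := hmem p hp
      obtain ⟨h1', h2', _⟩ := hmem p' hp'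
      have inj : ∀ {i j}, i ∈ I → j ∈ I → idx i = idx j → i = j := fun hi hj h => by
        rw [← hidx _ hi, ← hidx _ hj, h]
      rcases Sym2.eq_iff.1 h with ⟨h3, h4⟩ | ⟨h3, _⟩
      · have a1 := Sum.inl_injective (inj h1 h1' h3)
        have a2 := Sum.inr_injective (inj h2 h2' h4)
        obtain ⟨s, a⟩ := p
        obtain ⟨s', a'⟩ := p'
        simp only at a1 a2
        rw [a1, a2]
      · exact absurd (inj h1 h2' h3) (by simp)

/-- **Superlinear number of tangencies.** For every `k ≥ 3` there is no constant `C` such that every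
family of `n` pairwise intersecting, `k`-intersecting bi-infinite `x`-monotone curves has at most
`C n` tangencies. -/
theorem result : ∀ k : ℕ, 3 ≤ k → ¬ ∃ C : ℝ, ∀ (n : ℕ) (f : Fin n → ℝ → ℝ),
    IsFamily k f → (tangencies f : ℝ) ≤ C * n := by
  rintro k hk ⟨C, hC⟩
  obtain ⟨T, hT⟩ := exists_nat_gt (3 * |C|)
  obtain ⟨F, n, f, hF, hn, hf, ht⟩ := main (T + 1) (by omega)
  have hf' : IsFamily k f := ⟨hf.continuous, hf.meet, fun i j hij => (hf.few i j hij).trans
    (by exact_mod_cast hk), hf.simple⟩
  have h1 := hC n f hf'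
  have h2 : (((T + 1) * F : ℕ) : ℝ) ≤ tangencies f := by exact_mod_cast ht
  have h3 : (n : ℝ) ≤ 3 * F := by exact_mod_cast hn
  have h4 : (1 : ℝ) ≤ F := by exact_mod_cast hF
  have h5 : C * n ≤ |C| * n := mul_le_mul_of_nonneg_right (le_abs_self C) (Nat.cast_nonneg n)
  have h6 : |C| * n ≤ |C| * (3 * F) := mul_le_mul_of_nonneg_left h3 (abs_nonneg C)
  push_cast at h2
  nlinarith

end Pool.Agent.Results.MP_1a6bb7_co.SuperlinearTangencies
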